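import Pool.Agent.Helper43.QL.BaseChange

set_option autoImplicit false
set_option linter.unusedSectionVars false

/-!
# QL-A2: descent of the Auslander-Reiten conjecture along flat local homomorphisms, localization
-/

open CategoryTheory Abelian TensorProduct IsLocalRing

namespace Pool.Agent.Helper43.QH

open Pool.Agent.Helper35.ARC2 Pool.Agent.Helper35.AR

section

variable {R : Type} [CommRing R]

section

variable {S : Type} [CommRing S] [Algebra R S] [Module.Flat R S]

/-- Proof: `ext_baseChange`, `ext_baseChange_ring`. -/
theorem free_baseChange [IsNoetherianRing R] [IsLocalRing R] [HasExt.{0} (ModuleCat.{0} R)]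
    (hS : ARC S) (M : Type) [AddCommGroup M] [Module R M] [Module.Finite R M]
    (hMR : ∀ i : ℕ, 0 < i → Subsingleton (Ext (ModuleCat.of R M) (ModuleCat.of R R) i))
    (hMM : ∀ i : ℕ, 0 < i → Subsingleton (Ext (ModuleCat.of R M) (ModuleCat.of R M) i)) :
    Module.Free S (S ⊗[R] M) := by
  have : Module.Finite S (S ⊗[R] M) := Module.Finite.base_change R S M
  exact hS (S ⊗[R] M) (ext_baseChange_ring M hMR) (ext_baseChange M M hMM)

/-- Descent along a flat local homomorphism. Proof: `S ⊗ M` is free over `S` (`free_baseChange`), so
`M` is flat (faithfully flat descent), so `M` is free (`Module.free_of_flat_of_isLocalRing`). -/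
theorem arc_of_flat [IsNoetherianRing R] [IsLocalRing R] [IsLocalRing S]
    [IsLocalHom (algebraMap R S)] (hS : ARC S) : ARC R := by
  intro _ M _ _ _ h1 h2
  have : Module.Free S (S ⊗[R] M) := free_baseChange hS M h1 h2
  have : Module.FaithfullyFlat R S := Module.FaithfullyFlat.of_flat_of_isLocalHom
  have : Module.Flat R M := Module.Flat.of_flat_tensorProduct R M S
  exact Module.free_of_flat_of_isLocalRing

end

/-- Transport along an isomorphism of rings (`arc_of_flat` for the algebra given by the inverse). -/
theorem arc_of_equiv [IsNoetherianRing R] [IsLocalRing R] {S : Type} [CommRing S] (e : R ≃+* S)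
    (hR : ARC R) : ARC S := by
  let : Algebra S R := e.symm.toRingHom.toAlgebra
  have : IsNoetherianRing S := isNoetherianRing_of_ringEquiv R e
  have : IsLocalRing S := e.isLocalRing
  have hbij : Function.Bijective (algebraMap S R) := e.symm.bijective
  have : Module.Flat S R := by
    let f : S ≃ₗ[S] R := LinearEquiv.ofBijective (Algebra.linearMap S R) hbij
    exact Module.Flat.of_linearEquiv f.symm
  have : IsLocalHom (algebraMap S R) := by
    refine ⟨fun a ha => ?_⟩
    have h := ha.map e.toRingHom
    have h2 : e.toRingHom (algebraMap S R a) = a := e.apply_symm_apply a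
    rwa [h2] at h
  intro _ M _ _ _ h1 h2
  exact arc_of_flat (R := S) (S := R) hR M h1 h2

/-- Localization; `LocalizedModule.equivTensorProduct`. -/
theorem localized_free_of_arc [IsNoetherianRing R] [IsLocalRing R] [HasExt.{0} (ModuleCat.{0} R)]
    (M : Type) [AddCommGroup M] [Module R M] [Module.Finite R M] (p : Ideal R) [p.IsPrime]
    (h : ARC (Localization p.primeCompl))
    (hMR : ∀ i : ℕ, 0 < i → Subsingleton (Ext (ModuleCat.of R M) (ModuleCat.of R R) i))
    (hMM : ∀ i : ℕ, 0 < i → Subsingleton (Ext (ModuleCat.of R M) (ModuleCat.of R M) i)) :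
    Module.Free (Localization p.primeCompl) (LocalizedModule p.primeCompl M) := by
  have : Module.Flat R (Localization p.primeCompl) := IsLocalization.flat _ p.primeCompl
  have : Module.Free (Localization p.primeCompl) (Localization p.primeCompl ⊗[R] M) :=
    free_baseChange h M hMR hMM
  exact Module.Free.of_equiv (LocalizedModule.equivTensorProduct p.primeCompl M).symm

end

end Pool.Agent.Helper43.QH
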