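import Pool.Agent.Helper35.ARC2.Ascent

set_option autoImplicit false
set_option linter.unusedSectionVars false

/-!
# QL-A: flat base change of the Ext conditions, matrices

Project QL (MP_c0f807_al): ascent of the Auslander-Reiten conjecture. `ARC`, `Ex`, `act`,
`ExactFrom1`, `exists_res_module`, `exact_of_ext`, `ext_of_exact` are in
`Pool/Agent/Helper35/ARC2/{Defs,Act,Grow,Res}.lean`; `act_algebraMap`, `ex_map`, `Ex.of_equiv` are
useful.
-/

open CategoryTheory Abelian TensorProduct IsLocalRing

namespace Pool.Agent.Helper43.QH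

open Pool.Agent.Helper35.ARC2 Pool.Agent.Helper35.AR

section

variable {R : Type} [CommRing R]

section

variable {S : Type} [CommRing S] [Algebra R S] [Module.Flat R S]

omit [Module.Flat R S] in
private lemma piRight_act {X : Type} [AddCommGroup X] [Module R X] {p q : ℕ}
    (A : Matrix (Fin p) (Fin q) R) (t : S ⊗[R] (Fin q → X)) :
    act (S ⊗[R] X) (A.map (algebraMap R S)) (TensorProduct.piRight R S S (fun _ : Fin q => X) t) =
      TensorProduct.piRight R S S (fun _ : Fin p => X) ((act X A).lTensor S t) := by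
  induction t using TensorProduct.induction_on with
  | zero => simp only [map_zero]
  | add x y hx hy => simp only [map_add, hx, hy]
  | tmul s w =>
    rw [LinearMap.lTensor_tmul, TensorProduct.piRight_apply, TensorProduct.piRight_apply,
      TensorProduct.piRightHom_tmul, TensorProduct.piRightHom_tmul]
    funext a
    simp only [act_apply, Matrix.map_apply, TensorProduct.tmul_sum, TensorProduct.smul_tmul',
      TensorProduct.tmul_smul, algebraMap_smul]

omit [Module.Flat R S] in
private lemma exists_piRight {X : Type} [AddCommGroup X] [Module R X] {q : ℕ}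
    (v : Fin q → S ⊗[R] X) :
    ∃ t, TensorProduct.piRight R S S (fun _ : Fin q => X) t = v :=
  (TensorProduct.piRight R S S (fun _ : Fin q => X)).surjective v

/-- Flat base change of exactness. Proof: identify `S ⊗ (Fin q → X)` with `Fin q → S ⊗ X`
(`TensorProduct.piScalarRight` or by hand); by flatness (`Module.Flat.lTensor_exact`) every element
killed by the matrix `A` is a sum of elements `s ⊗ v`, `act X A v = 0`, hence `v = act X B w`. -/
theorem ex_baseChange {X : Type} [AddCommGroup X] [Module R X] {p q r : ℕ}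
    {A : Matrix (Fin p) (Fin q) R} {B : Matrix (Fin q) (Fin r) R} (h : Ex X A B) :
    Ex (S ⊗[R] X) (A.map (algebraMap R S)) (B.map (algebraMap R S)) := by
  intro v hv
  obtain ⟨t, rfl⟩ := exists_piRight v
  rw [piRight_act] at hv
  have hv' : (act X A).lTensor S t = 0 :=
    (TensorProduct.piRight R S S (fun _ : Fin p => X)).injective (hv.trans (map_zero _).symm)
  have hex : Function.Exact (LinearMap.ker (act X A)).subtype (act X A) :=
    LinearMap.exact_subtype_ker_map _
  obtain ⟨k, rfl⟩ := (Module.Flat.lTensor_exact S hex t).mp hv'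
  clear hv hv'
  induction k using TensorProduct.induction_on with
  | zero => exact ⟨0, by simp only [map_zero]⟩
  | add x y hx hy =>
    obtain ⟨w, hw⟩ := hx
    obtain ⟨w', hw'⟩ := hy
    exact ⟨w + w', by rw [map_add, map_add, hw, hw', map_add]⟩
  | tmul s x =>
    obtain ⟨w, hw⟩ := h x.1 (LinearMap.mem_ker.mp x.2)
    refine ⟨TensorProduct.piRight R S S (fun _ : Fin r => X) (s ⊗ₜ w), ?_⟩
    rw [piRight_act, LinearMap.lTensor_tmul, LinearMap.lTensor_tmul, ← hw]
    rfl

omit [Module.Flat R S] in
private lemma act_map_mul_zero {N : Type} [AddCommGroup N] [Module S N] {p q r : ℕ}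
    {A : Matrix (Fin p) (Fin q) R} {B : Matrix (Fin q) (Fin r) R} (h : A * B = 0)
    (v : Fin r → N) :
    act N (A.map (algebraMap R S)) (act N (B.map (algebraMap R S)) v) = 0 := by
  apply act_act_zero
  rw [← Matrix.map_mul, h, Matrix.map_zero _ (map_zero _)]

private lemma mul_eq_zero_of_range_le {p q r : ℕ} {A : Matrix (Fin p) (Fin q) R}
    {B : Matrix (Fin q) (Fin r) R}
    (h : LinearMap.range (act R B) ≤ LinearMap.ker (act R A)) : A * B = 0 := by
  ext a b
  have h1 := h ⟨Pi.single b 1, rfl⟩
  rw [LinearMap.mem_ker, act_act] at h1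
  have h2 := congrFun h1 a
  simpa [act_apply, Pi.single_apply] using h2

private lemma range_eq_ker_map {p q r : ℕ} {A : Matrix (Fin p) (Fin q) R}
    {B : Matrix (Fin q) (Fin r) R}
    (h : LinearMap.range (act R B) = LinearMap.ker (act R A)) :
    LinearMap.range (act S (B.map (algebraMap R S))) =
      LinearMap.ker (act S (A.map (algebraMap R S))) := by
  apply le_antisymm
  · rintro _ ⟨v, rfl⟩
    exact LinearMap.mem_ker.mpr (act_map_mul_zero (mul_eq_zero_of_range_le h.le) v)
  · intro v hv
    have hE : Ex R A B := by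
      intro u hu
      have h1 : u ∈ LinearMap.range (act R B) := by
        rw [h]
        exact LinearMap.mem_ker.mpr hu
      obtain ⟨w, hw⟩ := h1
      exact ⟨w, hw.symm⟩
    have h2 : Ex S (A.map (algebraMap R S)) (B.map (algebraMap R S)) :=
      (ex_baseChange (S := S) hE).of_equiv (TensorProduct.AlgebraTensorModule.rid R S S)
    obtain ⟨w, hw⟩ := h2 v (LinearMap.mem_ker.mp hv)
    exact ⟨w, hw.symm⟩

omit [Module.Flat R S] in
/-- the base change of an augmentation -/
private lemma exists_aug {M : Type} [AddCommGroup M] [Module R M] {p q : ℕ}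
    (π : (Fin p → R) →ₗ[R] M) (hπ : Function.Surjective π)
    (B : Matrix (Fin p) (Fin q) R) (h0 : LinearMap.range (act R B) = LinearMap.ker π) :
    ∃ π' : (Fin p → S) →ₗ[S] S ⊗[R] M, Function.Surjective π' ∧
      LinearMap.range (act S (B.map (algebraMap R S))) = LinearMap.ker π' := by
  let e : ∀ k : ℕ, S ⊗[R] (Fin k → R) ≃ₗ[S] (Fin k → S) := fun k =>
    (TensorProduct.piRight R S S (fun _ : Fin k => R)) ≪≫ₗ
      LinearEquiv.piCongrRight (fun _ : Fin k => TensorProduct.AlgebraTensorModule.rid R S S)
  have he : ∀ t : S ⊗[R] (Fin q → R), act S (B.map (algebraMap R S)) (e q t) =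
      e p ((act R B).lTensor S t) := by
    intro t
    have h1 := act_map (TensorProduct.AlgebraTensorModule.rid R S S).toLinearMap
      (B.map (algebraMap R S)) (TensorProduct.piRight R S S (fun _ : Fin q => R) t)
    rw [piRight_act] at h1
    exact h1
  refine ⟨(π.baseChange S).comp (e p).symm.toLinearMap, ?_, ?_⟩
  · intro y
    obtain ⟨t, ht⟩ := LinearMap.lTensor_surjective S hπ y
    refine ⟨e p t, ?_⟩
    rw [LinearMap.comp_apply, LinearEquiv.coe_coe, LinearEquiv.symm_apply_apply]
    exact ht
  · have hex : Function.Exact (act R B) π := by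
      intro u
      rw [← LinearMap.mem_ker, ← h0]
      exact Iff.rfl
    have hex' := lTensor_exact S hex hπ
    ext v
    constructor
    · rintro ⟨w, rfl⟩
      obtain ⟨t, rfl⟩ := (e q).surjective w
      rw [LinearMap.mem_ker, he, LinearMap.comp_apply, LinearEquiv.coe_coe,
        LinearEquiv.symm_apply_apply]
      exact (hex' _).mpr ⟨t, rfl⟩
    · intro hv
      rw [LinearMap.mem_ker, LinearMap.comp_apply, LinearEquiv.coe_coe] at hv
      obtain ⟨t, ht⟩ := (hex' _).mp hv
      refine ⟨e q t, ?_⟩
      rw [he, ht, LinearEquiv.apply_symm_apply]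

private lemma ext_baseChange_aux [IsNoetherianRing R] [IsLocalRing R]
    [HasExt.{0} (ModuleCat.{0} R)] [HasExt.{0} (ModuleCat.{0} S)]
    (M X X' : Type) [AddCommGroup M] [Module R M] [Module.Finite R M] [AddCommGroup X]
    [Module R X] [AddCommGroup X'] [Module S X'] (f : S ⊗[R] X ≃ₗ[S] X')
    (h : ∀ i : ℕ, 0 < i → Subsingleton (Ext (ModuleCat.of R M) (ModuleCat.of R X) i)) :
    ∀ i : ℕ, 0 < i →
      Subsingleton (Ext (ModuleCat.of S (S ⊗[R] M)) (ModuleCat.of S X') i) := by
  obtain ⟨n, d, π, hπ, h0, hd⟩ := exists_res_module (R := R) M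
  have hX := exact_of_ext hπ.1 h0 hd h
  obtain ⟨π', hπ', h0'⟩ := exists_aug (S := S) π hπ.1 (d 0) h0
  refine ext_of_exact (n := n) (d := fun i => (d i).map (algebraMap R S)) (π := π') hπ' h0'
    (fun i => range_eq_ker_map (hd i)) ?_
  intro i
  exact (ex_baseChange (S := S) (hX i)).of_equiv f

/-- Proof: take a resolution of `M` by matrices (`exists_res_module`); by flatness its base change
is a resolution of `S ⊗ M`. Use `exact_of_ext`, `ex_baseChange`, `ext_of_exact`. -/
theorem ext_baseChange [IsNoetherianRing R] [IsLocalRing R] [HasExt.{0} (ModuleCat.{0} R)]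
    [HasExt.{0} (ModuleCat.{0} S)]
    (M X : Type) [AddCommGroup M] [Module R M] [Module.Finite R M] [AddCommGroup X] [Module R X]
    (h : ∀ i : ℕ, 0 < i → Subsingleton (Ext (ModuleCat.of R M) (ModuleCat.of R X) i)) :
    ∀ i : ℕ, 0 < i →
      Subsingleton (Ext (ModuleCat.of S (S ⊗[R] M)) (ModuleCat.of S (S ⊗[R] X)) i) :=
  ext_baseChange_aux M X (S ⊗[R] X) (LinearEquiv.refl S _) h

/-- The case `X = R`, with `S ⊗ R` replaced by `S`. -/
theorem ext_baseChange_ring [IsNoetherianRing R] [IsLocalRing R] [HasExt.{0} (ModuleCat.{0} R)]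
    [HasExt.{0} (ModuleCat.{0} S)]
    (M : Type) [AddCommGroup M] [Module R M] [Module.Finite R M]
    (h : ∀ i : ℕ, 0 < i → Subsingleton (Ext (ModuleCat.of R M) (ModuleCat.of R R) i)) :
    ∀ i : ℕ, 0 < i → Subsingleton (Ext (ModuleCat.of S (S ⊗[R] M)) (ModuleCat.of S S) i) :=
  ext_baseChange_aux M R S (TensorProduct.AlgebraTensorModule.rid R S S) h

end

end

end Pool.Agent.Helper43.QH
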