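import Mathlib

set_option autoImplicit false
set_option linter.unusedSectionVars false

/-!
# QL-D: quotients of complete Noetherian local rings are complete
-/

namespace Pool.Agent.Helper43.QH

section

variable {Q R : Type} [CommRing Q] [CommRing R] [Algebra Q R]

private theorem mem_max_iff_of_surjective [IsLocalRing Q] [IsLocalRing R]
    (hsurj : Function.Surjective (algebraMap Q R)) (a : Q) :
    algebraMap Q R a ∈ IsLocalRing.maximalIdeal R ↔ a ∈ IsLocalRing.maximalIdeal Q := by
  constructor
  · intro h
    by_contra hn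
    have h1 : IsUnit a := by
      by_contra h2
      exact hn ((IsLocalRing.mem_maximalIdeal a).2 h2)
    exact (IsLocalRing.mem_maximalIdeal _).1 h (h1.map (algebraMap Q R))
  · intro h
    rw [IsLocalRing.mem_maximalIdeal]
    intro hu
    obtain ⟨b', hb'⟩ := hu.exists_right_inv
    obtain ⟨b, rfl⟩ := hsurj b'
    have h1 : a * b ∈ IsLocalRing.maximalIdeal Q := Ideal.mul_mem_right _ _ h
    have h2 : IsUnit (1 - a * b) := by
      by_contra h3
      have h4 : (1 - a * b) ∈ IsLocalRing.maximalIdeal Q := (IsLocalRing.mem_maximalIdeal _).2 h3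
      have h5 := Ideal.add_mem _ h4 h1
      rw [sub_add_cancel] at h5
      exact (Ideal.ne_top_iff_one _).1 (IsLocalRing.maximalIdeal.isMaximal Q).ne_top h5
    have h3 := h2.map (algebraMap Q R)
    rw [map_sub, map_one, map_mul, hb', sub_self] at h3
    exact not_isUnit_zero h3

private theorem map_max_of_surjective [IsLocalRing Q] [IsLocalRing R]
    (hsurj : Function.Surjective (algebraMap Q R)) :
    Ideal.map (algebraMap Q R) (IsLocalRing.maximalIdeal Q) = IsLocalRing.maximalIdeal R := by
  apply le_antisymm
  · rw [Ideal.map_le_iff_le_comap]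
    intro a ha
    exact (mem_max_iff_of_surjective hsurj a).2 ha
  · intro x hx
    obtain ⟨a, rfl⟩ := hsurj x
    exact Ideal.mem_map_of_mem _ ((mem_max_iff_of_surjective hsurj a).1 hx)

/-- Proof. Hausdorff: the theorem of Krull. Precomplete: lift a coherent sequence of `R` to a
sequence of `Q` whose successive differences lie in `m ^ n` (`m_R ^ n` is the image of `m ^ n`) and
take the image of its limit. -/
theorem isAdicComplete_of_surjective [IsNoetherianRing Q] [IsLocalRing Q] [IsLocalRing R]
    [IsAdicComplete (IsLocalRing.maximalIdeal Q) Q]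
    (hsurj : Function.Surjective (algebraMap Q R)) :
    IsAdicComplete (IsLocalRing.maximalIdeal R) R := by
  have hN : IsNoetherianRing R := isNoetherianRing_of_surjective Q R (algebraMap Q R) hsurj
  have hmap := map_max_of_surjective (Q := Q) (R := R) hsurj
  have hpow : ∀ (n : ℕ) (x : R), x ∈ IsLocalRing.maximalIdeal R ^ n →
      ∃ a ∈ IsLocalRing.maximalIdeal Q ^ n, algebraMap Q R a = x := by
    intro n x hx
    rw [← hmap, ← Ideal.map_pow] at hx
    exact (Ideal.mem_map_iff_of_surjective _ hsurj).1 hx
  have hH : IsHausdorff (IsLocalRing.maximalIdeal R) R := by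
    refine ⟨fun x hx => ?_⟩
    have hbot := Ideal.iInf_pow_eq_bot_of_isLocalRing (IsLocalRing.maximalIdeal R)
      (IsLocalRing.maximalIdeal.isMaximal R).ne_top
    have hmem : x ∈ ⨅ i : ℕ, IsLocalRing.maximalIdeal R ^ i := by
      rw [Submodule.mem_iInf]
      intro i
      have := hx i
      rwa [SModEq.sub_mem, smul_eq_mul, Ideal.mul_top, sub_zero] at this
    rw [hbot] at hmem
    simpa using hmem
  have hP : IsPrecomplete (IsLocalRing.maximalIdeal R) R := by
    refine ⟨fun f hf => ?_⟩
    have hstep : ∀ n, f (n + 1) - f n ∈ IsLocalRing.maximalIdeal R ^ n := by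
      intro n
      have h1 := hf (Nat.le_succ n)
      rw [SModEq.sub_mem, smul_eq_mul, Ideal.mul_top] at h1
      rw [← neg_sub]
      exact neg_mem_iff.2 h1
    choose a ha1 ha2 using fun n => hpow n _ (hstep n)
    obtain ⟨F0, hF0⟩ := hsurj (f 0)
    let F : ℕ → Q := fun n => F0 + ∑ i ∈ Finset.range n, a i
    have hF : ∀ n, algebraMap Q R (F n) = f n := by
      intro n
      induction n with
      | zero => simp [F, hF0]
      | succ n ih =>
        have h1 : F (n + 1) = F n + a n := by
          simp only [F, Finset.sum_range_succ]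
          ring
        rw [h1, map_add, ih, ha2]
        ring
    have hFs : ∀ n, F (n + 1) - F n ∈ IsLocalRing.maximalIdeal Q ^ n := by
      intro n
      have h1 : F (n + 1) - F n = a n := by
        simp only [F, Finset.sum_range_succ]
        ring
      rw [h1]
      exact ha1 n
    have hle : ∀ b c : ℕ, b ≤ c → F c - F b ∈ IsLocalRing.maximalIdeal Q ^ b := by
      intro b c hbc
      induction c, hbc using Nat.le_induction with
      | base => simp
      | succ c hbc ih =>
        have h1 : F (c + 1) - F c ∈ IsLocalRing.maximalIdeal Q ^ b :=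
          Ideal.pow_le_pow_right hbc (hFs c)
        have h2 := Ideal.add_mem _ h1 ih
        have h3 : F (c + 1) - F c + (F c - F b) = F (c + 1) - F b := by ring
        rwa [h3] at h2
    obtain ⟨L, hL⟩ := IsPrecomplete.prec' (I := IsLocalRing.maximalIdeal Q) F (fun {b c} hbc => by
      rw [SModEq.sub_mem, smul_eq_mul, Ideal.mul_top]
      have := hle b c hbc
      rw [← neg_sub] at this
      exact (neg_mem_iff).1 this)
    refine ⟨algebraMap Q R L, fun n => ?_⟩
    have h1 := hL n
    rw [SModEq.sub_mem, smul_eq_mul, Ideal.mul_top] at h1 ⊢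
    rw [← hF n, ← map_sub, ← hmap, ← Ideal.map_pow]
    exact Ideal.mem_map_of_mem _ h1
  exact { }

end

end Pool.Agent.Helper43.QH
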