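import Pool.Agent.Helper43.QL.Quot

/-!
# QL-C: ascent of the vanishing of Ext from `R = Q / y` to `Q`
-/

set_option autoImplicit false
set_option linter.unusedSectionVars false

open Pool.Agent.Helper35.ARC2 CategoryTheory Abelian

namespace Pool.Agent.Helper43.QH

section

variable {Q R : Type} [CommRing Q] [CommRing R] [Algebra Q R] {y : Q}
variable {L M : Type} [AddCommGroup L] [Module Q L] [AddCommGroup M] [Module R M] [Module Q M]
  [IsScalarTower Q R M] {f : L →ₗ[Q] M}

/-- reduction of the coordinates -/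
private def ea_bar {k : ℕ} (R : Type) [CommRing R] [Algebra Q R] (u : Fin k → Q) : Fin k → R :=
  fun b => algebraMap Q R (u b)

private theorem ea_bar_lift (hQ : IsQ Q R y) {k : ℕ} (v : Fin k → R) :
    ∃ u : Fin k → Q, ea_bar R u = v := by
  choose u hu using fun b => hQ.surj (v b)
  exact ⟨u, funext hu⟩

private theorem ea_bar_act {p q : ℕ} (D : Matrix (Fin p) (Fin q) Q) (u : Fin q → Q) :
    act R (D.map (algebraMap Q R)) (ea_bar R u) = ea_bar R (act Q D u) := by
  funext a
  simp [act_apply, ea_bar, map_sum]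

private theorem ea_bar_sub_smul (hQ : IsQ Q R y) {k : ℕ} (u t s : Fin k → Q)
    (h : u - y • t = s) : ea_bar R u = ea_bar R s := by
  funext b
  have h1 : algebraMap Q R (y * t b) = 0 := (hQ.ker _).2 ⟨t b, rfl⟩
  have h2 : s b = u b - y * t b := by
    rw [← h]
    simp
  simp only [ea_bar]
  rw [h2, map_sub, h1, sub_zero]

private theorem ea_bar_zero (hQ : IsQ Q R y) {k : ℕ} (u : Fin k → Q) (h : ea_bar R u = 0) :
    ∃ u', u = y • u' := by
  choose u' hu' using fun b => (hQ.ker (u b)).1 (congrFun h b)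
  exact ⟨u', funext fun b => by simpa using hu' b⟩

private theorem ea_bar_of_zero {k : ℕ} : ea_bar R (0 : Fin k → Q) = 0 := by
  funext b
  simp [ea_bar]

/-- Reduction of a resolution. Proof. `π'` is induced by `f ∘ π`. If `D i v = y u` with `i ≥ 1` then
`y D (i - 1) u = 0`, so `u = D i w` and `v - y w = D (i + 1) t`; similarly at the other places
(`i = 0` uses that `y` is regular on `L`). -/
theorem resolution_quot (hQ : IsQ Q R y) (hy : y ∈ nonZeroDivisors Q) (hf : IsM Q y f)
    {n : ℕ → ℕ} {D : ∀ i, Matrix (Fin (n i)) (Fin (n (i + 1))) Q}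
    {π : (Fin (n 0) → Q) →ₗ[Q] L} (hπ : Function.Surjective π)
    (h0 : LinearMap.range (act Q (D 0)) = LinearMap.ker π)
    (hD : ∀ i, LinearMap.range (act Q (D (i + 1))) = LinearMap.ker (act Q (D i))) :
    ∃ π' : (Fin (n 0) → R) →ₗ[R] M, Function.Surjective π' ∧
      LinearMap.range (act R ((D 0).map (algebraMap Q R))) = LinearMap.ker π' ∧
      ∀ i, LinearMap.range (act R ((D (i + 1)).map (algebraMap Q R))) =
        LinearMap.ker (act R ((D i).map (algebraMap Q R))) := by
  let π' : (Fin (n 0) → R) →ₗ[R] M := lin (R := R) fun b => f (π (Pi.single b 1))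
  have hπ' : ∀ u : Fin (n 0) → Q, π' (ea_bar R u) = f (π u) := by
    intro u
    have h1 : π u = ∑ b, u b • π (Pi.single b 1) := by
      conv_lhs => rw [eq_lin π]
      rw [lin_apply]
    rw [h1, map_sum]
    show lin (R := R) (fun b => f (π (Pi.single b 1))) (ea_bar R u) = _
    rw [lin_apply]
    refine Finset.sum_congr rfl fun b _ => ?_
    rw [map_smul]
    exact algebraMap_smul R (u b) _
  have hr0 : ∀ t, π (act Q (D 0) t) = 0 := fun t => by
    have : act Q (D 0) t ∈ LinearMap.ker π := by
      rw [← h0]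
      exact ⟨t, rfl⟩
    exact this
  have hr : ∀ i t, act Q (D i) (act Q (D (i + 1)) t) = 0 := fun i t => by
    have : act Q (D (i + 1)) t ∈ LinearMap.ker (act Q (D i)) := by
      rw [← hD i]
      exact ⟨t, rfl⟩
    exact this
  have hk0 : ∀ u, π u = 0 → ∃ t, act Q (D 0) t = u := fun u hu => by
    have : u ∈ LinearMap.range (act Q (D 0)) := by
      rw [h0]
      exact hu
    exact this
  have hk : ∀ i u, act Q (D i) u = 0 → ∃ t, act Q (D (i + 1)) t = u := fun i u hu => by
    have : u ∈ LinearMap.range (act Q (D (i + 1))) := by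
      rw [hD i]
      exact hu
    exact this
  have hreg : ∀ {k : ℕ} (u : Fin k → Q), y • u = 0 → u = 0 := by
    intro k u hu
    funext b
    have h1 : u b * y = 0 := by
      have := congrFun hu b
      simpa [mul_comm] using this
    exact (mem_nonZeroDivisors_iff_right.mp hy) _ h1
  refine ⟨π', ?_, ?_, ?_⟩
  · intro m
    obtain ⟨l, rfl⟩ := hf.surj m
    obtain ⟨u, rfl⟩ := hπ l
    exact ⟨ea_bar R u, hπ' u⟩
  · apply le_antisymm
    · rintro _ ⟨w, rfl⟩
      obtain ⟨u, rfl⟩ := ea_bar_lift hQ w
      rw [ea_bar_act, LinearMap.mem_ker, hπ', hr0, map_zero]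
    · intro v hv
      obtain ⟨u, rfl⟩ := ea_bar_lift hQ v
      rw [LinearMap.mem_ker, hπ', hf.ker] at hv
      obtain ⟨l, hl⟩ := hv
      obtain ⟨u2, rfl⟩ := hπ l
      obtain ⟨t, ht⟩ := hk0 (u - y • u2) (by rw [map_sub, map_smul, hl, sub_self])
      refine ⟨ea_bar R t, ?_⟩
      rw [ea_bar_act]
      exact (ea_bar_sub_smul hQ u u2 _ ht.symm).symm
  · intro i
    apply le_antisymm
    · rintro _ ⟨w, rfl⟩
      obtain ⟨u, rfl⟩ := ea_bar_lift hQ w
      rw [ea_bar_act, LinearMap.mem_ker, ea_bar_act, hr, ea_bar_of_zero]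
    · intro v hv
      obtain ⟨u, rfl⟩ := ea_bar_lift hQ v
      rw [LinearMap.mem_ker, ea_bar_act] at hv
      obtain ⟨u2, hu2⟩ := ea_bar_zero hQ _ hv
      have hu3 : ∃ t, act Q (D i) t = u2 := by
        cases i with
        | zero =>
          apply hk0
          apply hf.reg
          rw [← map_smul, ← hu2, hr0]
        | succ i =>
          apply hk
          apply hreg
          rw [← map_smul, ← hu2, hr]
      obtain ⟨t, rfl⟩ := hu3
      obtain ⟨s, hs⟩ := hk i (u - y • t) (by rw [map_sub, map_smul, hu2, sub_self])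
      refine ⟨ea_bar R s, ?_⟩
      rw [ea_bar_act]
      exact (ea_bar_sub_smul hQ u t _ hs.symm).symm

/-- Proof. Resolution `D` of `L` over `Q` (`exists_res_module`), `resolution_quot`,
`exact_of_ext`: the complex of the transposed matrices is exact on `X`. If
`v : Fin (n (i + 1)) → Y` is killed by `(D (i + 1)).transpose` then `v = (D i).transpose w + y u`,
and `y (D (i + 1)).transpose u = 0`, so `(D (i + 1)).transpose u = 0`: the lemma of Nakayama gives
exactness on `Y`; then `ext_of_exact`. (`Pool.Agent.Helper35.ARC2.lift_dual` in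
`Pool/Agent/Helper35/ARC2/Tower.lean` is a similar proof.) -/
theorem ext_ascent [IsNoetherianRing Q] [IsLocalRing Q] [HasExt.{0} (ModuleCat.{0} Q)]
    [HasExt.{0} (ModuleCat.{0} R)]
    (hQ : IsQ Q R y) (hy : y ∈ nonZeroDivisors Q) (hym : y ∈ IsLocalRing.maximalIdeal Q)
    [Module.Finite Q L] (hf : IsM Q y f)
    {Y X : Type} [AddCommGroup Y] [Module Q Y] [AddCommGroup X] [Module R X] [Module Q X]
    [IsScalarTower Q R X] {g : Y →ₗ[Q] X} [Module.Finite Q Y] (hg : IsM Q y g)
    (h : ∀ i : ℕ, 0 < i → Subsingleton (Ext (ModuleCat.of R M) (ModuleCat.of R X) i)) :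
    ∀ i : ℕ, 0 < i → Subsingleton (Ext (ModuleCat.of Q L) (ModuleCat.of Q Y) i) := by
  obtain ⟨n, D, π, hmin, h0, hD⟩ := exists_res_module (R := Q) L
  obtain ⟨π', hπ', h0', hD'⟩ := resolution_quot (M := M) hQ hy hf hmin.1 h0 hD
  have hX := exact_of_ext (X := X) (d := fun i => (D i).map (algebraMap Q R)) hπ' h0' hD' h
  refine ext_of_exact (d := D) hmin.1 h0 hD ?_
  intro i
  have hXi : ∀ v : Fin (n (i + 1)) → X, act X (D (i + 1)).transpose v = 0 →
      ∃ w, v = act X (D i).transpose w := by
    intro v hv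
    obtain ⟨w, hw⟩ := hX i v (by
      show act X (((D (i + 1)).map (algebraMap Q R)).transpose) v = 0
      rw [← Matrix.transpose_map, act_algebraMap, hv])
    refine ⟨w, ?_⟩
    have hw' : v = act X (((D i).map (algebraMap Q R)).transpose) w := hw
    rw [← Matrix.transpose_map, act_algebraMap] at hw'
    exact hw'
  have hdd : D i * D (i + 1) = 0 := matrix_mul_eq_zero fun u => by
    have : act Q (D (i + 1)) u ∈ LinearMap.ker (act Q (D i)) := by
      rw [← hD i]
      exact ⟨u, rfl⟩
    exact this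
  have hAB : (D (i + 1)).transpose * (D i).transpose = 0 := by
    rw [← Matrix.transpose_mul, hdd, Matrix.transpose_zero]
  show Ex Y (D (i + 1)).transpose (D i).transpose
  set A := (D (i + 1)).transpose with hA
  set B := (D i).transpose with hB
  set Z := LinearMap.ker (act Y A) with hZ
  have h2 : Z ≤ LinearMap.range (act Y B) ⊔ IsLocalRing.maximalIdeal Q • Z := by
    intro v hv
    obtain ⟨w'', hw''⟩ := hXi (fun b => g (v b)) (by
      rw [act_map, LinearMap.mem_ker.mp hv]
      funext a
      simp)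
    choose w hw using fun b => hg.surj (w'' b)
    have h3 : ∀ b, g ((v - act Y B w) b) = 0 := by
      intro b
      have h4 := congrFun hw'' b
      have h5 := congrFun (act_map g B w) b
      rw [Pi.sub_apply, map_sub, ← h5]
      have h6 : (fun b => g (w b)) = w'' := funext hw
      rw [h6, ← h4, sub_self]
    choose u hu using fun b => (hg.ker _).1 (h3 b)
    have h5 : v = act Y B w + y • u := by
      have h6 : y • u = v - act Y B w := by
        funext b
        rw [hu b]
        rfl
      rw [h6]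
      abel
    rw [h5]
    refine Submodule.add_mem_sup ⟨w, rfl⟩ (Submodule.smul_mem_smul hym ?_)
    rw [hZ, LinearMap.mem_ker]
    have h7 : y • act Y A u = 0 := by
      rw [← map_smul]
      have h8 : y • u = v - act Y B w := by
        rw [h5]
        abel
      rw [h8, map_sub, LinearMap.mem_ker.mp hv, act_act_zero hAB, sub_zero]
    funext a
    exact hg.reg _ (congrFun h7 a)
  intro v hv
  have hN : IsNoetherian Q (Fin (n (i + 1)) → Y) := isNoetherian_of_isNoetherianRing_of_finite Q _
  have h3 : Z ≤ LinearMap.range (act Y B) := by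
    have h4 : IsLocalRing.maximalIdeal Q ≤ Ideal.jacobson ⊥ := by
      rw [IsLocalRing.jacobson_eq_maximalIdeal _ bot_ne_top]
    exact Submodule.le_of_le_smul_of_le_jacobson_bot (IsNoetherian.noetherian Z) h4 h2
  obtain ⟨w, hw⟩ := h3 (show v ∈ Z from hv)
  exact ⟨w, hw.symm⟩

end

end Pool.Agent.Helper43.QH
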