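import Pool.Agent.Helper43.QL.Limit

set_option autoImplicit false
set_option linter.unusedSectionVars false

/-!
# QL-B3: lifting a module (Auslander, Ding, Solberg)
-/

open Pool.Agent.Helper35.ARC2 CategoryTheory Abelian

namespace Pool.Agent.Helper43.QH

section

variable {Q R : Type} [CommRing Q] [CommRing R] [Algebra Q R] {y : Q}

/-- The cokernel `L` of a lift `D1` of `d0` is a lift of the cokernel `M` of `d0` if the relations
lift. Proof. `L = (Fin p → Q) ⧸ range (act Q D1)` and `f` is induced by `v ↦ π (algebraMap ∘ v)`.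
If `y v = D1 w` then `d0 w = 0` over `R`, so `w = D2 u + y t`, `y v = y D1 t`, `v = D1 t`. If
`π v = 0` over `R` then `v = D1 w + y u`. -/
theorem exists_coker (hQ : IsQ Q R y) (hy : y ∈ nonZeroDivisors Q)
    {M : Type} [AddCommGroup M] [Module R M] [Module Q M] [IsScalarTower Q R M] {p q r : ℕ}
    {d0 : Matrix (Fin p) (Fin q) R} {d1 : Matrix (Fin q) (Fin r) R}
    {π : (Fin p → R) →ₗ[R] M} (hπ : Function.Surjective π)
    (e0 : LinearMap.range (act R d0) = LinearMap.ker π)
    (e1 : LinearMap.range (act R d1) = LinearMap.ker (act R d0))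
    {D1 : Matrix (Fin p) (Fin q) Q} {D2 : Matrix (Fin q) (Fin r) Q}
    (h1 : D1.map (algebraMap Q R) = d0) (h2 : D2.map (algebraMap Q R) = d1) (h12 : D1 * D2 = 0) :
    ∃ (L : Type) (_ : AddCommGroup L) (_ : Module Q L) (f : L →ₗ[Q] M),
      Module.Finite Q L ∧ IsM Q y f := by
  classical
  have hlift : ∀ {t : ℕ} (u : Fin t → R), ∃ v : Fin t → Q, (fun a => algebraMap Q R (v a)) = u := by
    intro t u
    choose v hv using fun a => hQ.surj (u a)
    exact ⟨v, funext hv⟩
  have halg : ∀ {s t : ℕ} (D : Matrix (Fin s) (Fin t) Q) (w : Fin t → Q),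
      (fun a => algebraMap Q R (act Q D w a)) =
        act R (D.map (algebraMap Q R)) (fun b => algebraMap Q R (w b)) := by
    intro s t D w
    funext a
    simp [act_apply, map_sum]
  have hdvd : ∀ {t : ℕ} (v v' : Fin t → Q),
      (fun a => algebraMap Q R (v a)) = (fun a => algebraMap Q R (v' a)) →
        ∃ b : Fin t → Q, v = v' + y • b := by
    intro t v v' h
    choose b hb using fun a => (hQ.ker (v a - v' a)).1 (by
      rw [map_sub, sub_eq_zero]
      exact congrFun h a)
    refine ⟨b, funext fun a => ?_⟩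
    rw [Pi.add_apply, Pi.smul_apply, smul_eq_mul, ← hb]
    ring
  have hy0 : algebraMap Q R y = 0 := (hQ.ker y).2 ⟨1, (mul_one y).symm⟩
  let g : (Fin p → Q) →ₗ[Q] M :=
    { toFun := fun v => π (fun a => algebraMap Q R (v a))
      map_add' := fun v w => by
        rw [← map_add]
        congr 1
        funext a
        simp
      map_smul' := fun t v => by
        have h3 : (fun a => algebraMap Q R ((t • v) a)) =
            algebraMap Q R t • fun a => algebraMap Q R (v a) := by
          funext a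
          simp
        rw [h3, map_smul, RingHom.id_apply]
        exact algebraMap_smul R t _ }
  have hg : ∀ v, g v = π (fun a => algebraMap Q R (v a)) := fun v => rfl
  have hle : LinearMap.range (act Q D1) ≤ LinearMap.ker g := by
    rintro _ ⟨w, rfl⟩
    rw [LinearMap.mem_ker, hg, halg, h1]
    have h3 : act R d0 (fun b => algebraMap Q R (w b)) ∈ LinearMap.ker π := by
      rw [← e0]
      exact ⟨_, rfl⟩
    exact h3
  refine ⟨(Fin p → Q) ⧸ LinearMap.range (act Q D1), inferInstance, inferInstance,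
    (LinearMap.range (act Q D1)).liftQ g hle, inferInstance, ?_, ?_, ?_⟩
  · intro x
    obtain ⟨u, rfl⟩ := hπ x
    obtain ⟨v, rfl⟩ := hlift u
    exact ⟨Submodule.Quotient.mk v, rfl⟩
  · intro a
    constructor
    · intro ha
      obtain ⟨v, rfl⟩ := Submodule.Quotient.mk_surjective _ a
      have h3 : (fun a => algebraMap Q R (v a)) ∈ LinearMap.ker π := ha
      rw [← e0] at h3
      obtain ⟨u, hu⟩ := h3
      obtain ⟨w, rfl⟩ := hlift u
      rw [← h1, ← halg] at hu
      obtain ⟨b, hb⟩ := hdvd _ _ hu.symm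
      refine ⟨Submodule.Quotient.mk b, ?_⟩
      rw [← Submodule.Quotient.mk_smul, Submodule.Quotient.eq, hb, add_sub_cancel_right]
      exact ⟨w, rfl⟩
    · rintro ⟨b, rfl⟩
      rw [map_smul, ← algebraMap_smul R y, hy0, zero_smul]
  · intro a ha
    obtain ⟨v, rfl⟩ := Submodule.Quotient.mk_surjective _ a
    rw [← Submodule.Quotient.mk_smul, Submodule.Quotient.mk_eq_zero] at ha
    obtain ⟨w, hw⟩ := ha
    have h3 : (fun b => algebraMap Q R (w b)) ∈ LinearMap.ker (act R d0) := by
      rw [LinearMap.mem_ker, ← h1, ← halg, hw]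
      funext a
      rw [Pi.smul_apply, smul_eq_mul, map_mul, hy0, zero_mul]
      rfl
    rw [← e1] at h3
    obtain ⟨u, hu⟩ := h3
    obtain ⟨u, rfl⟩ := hlift u
    rw [← h2, ← halg] at hu
    obtain ⟨t, ht⟩ := hdvd _ _ hu.symm
    have h4 : y • act Q D1 t = y • v := by
      rw [← hw, ht, map_add, map_smul, act_act, h12, act_zero, zero_add]
    have h5 : act Q D1 t = v := by
      funext a
      have h6 := congrFun h4 a
      rw [Pi.smul_apply, Pi.smul_apply, smul_eq_mul, smul_eq_mul] at h6
      exact (mul_cancel_left_mem_nonZeroDivisors hy).1 h6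
    rw [Submodule.Quotient.mk_eq_zero]
    exact ⟨t, h5⟩

/-- Proof: `exists_res_module` for `M`, `exact_of_ext`, `exists_lift_pair`, `exists_coker`. -/
theorem exists_liftMod [IsNoetherianRing Q] [IsLocalRing Q]
    [IsAdicComplete (IsLocalRing.maximalIdeal Q) Q] [IsNoetherianRing R] [IsLocalRing R]
    (hQ : IsQ Q R y) (hy : y ∈ nonZeroDivisors Q) (hym : y ∈ IsLocalRing.maximalIdeal Q)
    [HasExt.{0} (ModuleCat.{0} R)]
    (M : Type) [AddCommGroup M] [Module R M] [Module Q M] [IsScalarTower Q R M] [Module.Finite R M]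
    (hMM : ∀ i : ℕ, 0 < i → Subsingleton (Ext (ModuleCat.of R M) (ModuleCat.of R M) i)) :
    ∃ (L : Type) (_ : AddCommGroup L) (_ : Module Q L) (f : L →ₗ[Q] M),
      Module.Finite Q L ∧ IsM Q y f := by
  obtain ⟨n, d, π, hmin, h0, hd⟩ := exists_res_module (R := R) M
  have hX : ExactFrom1 M (fun i => (d i).transpose) := exact_of_ext hmin.1 h0 hd hMM
  obtain ⟨D1, D2, h1, h2, h12⟩ := exists_lift_pair (Q := Q) (R := R) hQ hy hym hmin.1 h0 (hd 0)
    (hd 1) (hX 1)
  exact exists_coker hQ hy hmin.1 h0 (hd 0) h1 h2 h12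

end

end Pool.Agent.Helper43.QH
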