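import Pool.Agent.Helper43.QL.BaseChange2
import Pool.Agent.Helper43.QL.LiftMod
import Pool.Agent.Helper43.QL.ExtAsc
import Pool.Agent.Helper43.QL.Compl

set_option autoImplicit false
set_option linter.unusedSectionVars false

/-!
# QL-E: the Auslander-Reiten conjecture for quotients by regular sequences
-/

open Pool.Agent.Helper35.ARC2 CategoryTheory Abelian RingTheory.Sequence

namespace Pool.Agent.Helper43.QH

section

variable {Q R : Type} [CommRing Q] [CommRing R] [Algebra Q R] {y : Q}

/-- Freeness of the reduction. Proof: the images in `M` of a basis of `L` form a basis. -/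
theorem free_of_isM (hQ : IsQ Q R y) {L M : Type} [AddCommGroup L] [Module Q L] [AddCommGroup M]
    [Module R M] [Module Q M] [IsScalarTower Q R M] {f : L →ₗ[Q] M} (hf : IsM Q y f)
    (hL : Module.Free Q L) : Module.Free R M := by
  let b := Module.Free.chooseBasis Q L
  have hli : LinearIndependent R (fun i => f (b i)) := by
    rw [linearIndependent_iff']
    intro s g hg i hi
    choose q hq using fun i => hQ.surj (g i)
    have h1 : f (∑ i ∈ s, q i • b i) = 0 := by
      rw [map_sum, ← hg]
      refine Finset.sum_congr rfl fun j _ => ?_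
      rw [map_smul, ← hq j, algebraMap_smul]
    obtain ⟨c, hc⟩ := (hf.ker _).1 h1
    have h2 : q i = y * b.repr c i := by
      have h3 := congrArg (fun x => b.repr x i) hc
      simp only [map_sum, map_smul, Module.Basis.repr_self, Finsupp.coe_finsetSum,
        Finset.sum_apply, Finsupp.smul_apply, smul_eq_mul] at h3
      rw [← h3, Finset.sum_eq_single i]
      · simp
      · intro j _ hj
        simp [hj]
      · intro hn
        exact absurd hi hn
    rw [← hq i]
    exact (hQ.ker _).2 ⟨_, h2⟩
  have hsp : ⊤ ≤ Submodule.span R (Set.range fun i => f (b i)) := by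
    intro m _
    obtain ⟨l, rfl⟩ := hf.surj m
    rw [← b.linearCombination_repr l, Finsupp.linearCombination_apply, Finsupp.sum, map_sum]
    refine Submodule.sum_mem _ fun i _ => ?_
    rw [map_smul, ← algebraMap_smul R]
    exact Submodule.smul_mem _ _ (Submodule.subset_span ⟨i, rfl⟩)
  exact Module.Free.of_basis (Module.Basis.mk hli hsp)

/-- Proof: `exists_liftMod` (with the `Q`-module structure `Module.compHom M (algebraMap Q R)`),
`ext_ascent` twice (for `L → M` and for `algebraMap : Q → R`), `free_of_isM`. -/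
theorem arc_quot [IsNoetherianRing Q] [IsLocalRing Q]
    [IsAdicComplete (IsLocalRing.maximalIdeal Q) Q]
    (hQ : IsQ Q R y) (hy : y ∈ nonZeroDivisors Q) (hym : y ∈ IsLocalRing.maximalIdeal Q)
    (h : ARC Q) : ARC R := by
  intro _ M _ _ _ h1 h2
  have hNT : Nontrivial R := by
    by_contra hn
    rw [not_nontrivial_iff_subsingleton] at hn
    obtain ⟨b, hb⟩ := (hQ.ker 1).1 (Subsingleton.elim _ _)
    have h3 : (1 : Q) ∈ IsLocalRing.maximalIdeal Q := by
      rw [hb]
      exact Ideal.mul_mem_right _ _ hym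
    exact (Ideal.ne_top_iff_one _).1 (IsLocalRing.maximalIdeal.isMaximal Q).ne_top h3
  have hLR : IsLocalRing R := IsLocalRing.of_surjective' (algebraMap Q R) hQ.surj
  have hNR : IsNoetherianRing R := isNoetherianRing_of_surjective Q R (algebraMap Q R) hQ.surj
  let _ : Module Q M := Module.compHom M (algebraMap Q R)
  have hST : IsScalarTower Q R M := IsScalarTower.of_algebraMap_smul fun _ _ => rfl
  obtain ⟨L, _, _, f, hfin, hf⟩ := exists_liftMod (Q := Q) (R := R) hQ hy hym M h2
  have hg : IsM Q y (Algebra.linearMap Q R) := by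
    refine ⟨hQ.surj, fun a => ?_, fun a ha => ?_⟩
    · exact hQ.ker a
    · rw [smul_eq_mul, mul_comm] at ha
      exact (mem_nonZeroDivisors_iff_right.1 hy) a ha
  have e1 := ext_ascent (L := L) (M := M) hQ hy hym hf hg h1
  have e2 := ext_ascent (L := L) (M := M) hQ hy hym hf hf h2
  exact free_of_isM hQ hf (h L e1 e2)

end

/-- Induction on the list `ys`, for all `Q` and `R`. `ys = []`: `arc_of_equiv`. `ys = y :: zs`:
`Q' = Q ⧸ (y)` satisfies the hypotheses (`isAdicComplete_of_surjective`, `arc_quot`), `R` is a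
`Q'`-algebra (`Ideal.Quotient.lift`), and the images of `zs` form a weakly regular sequence of
`Q'` (`isWeaklyRegular_cons_iff'` or `isWeaklyRegular_cons_iff`, `QuotSMulTop`,
`isWeaklyRegular_map_algebraMap_iff`). -/

theorem arc_quot_ofList : ∀ (n : ℕ) (Q R : Type) [CommRing Q] [CommRing R] [Algebra Q R]
    [IsNoetherianRing Q] [IsLocalRing Q] [IsAdicComplete (IsLocalRing.maximalIdeal Q) Q]
    (ys : List Q), ys.length = n → (∀ y ∈ ys, y ∈ IsLocalRing.maximalIdeal Q) →
    IsWeaklyRegular Q ys → Function.Surjective (algebraMap Q R) →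
    (∀ a : Q, algebraMap Q R a = 0 ↔ a ∈ Ideal.ofList ys) → ARC Q → ARC R := by
  intro n
  induction n with
  | zero =>
    intro Q R _ _ _ _ _ _ ys hlen _ _ hsurj hker h
    rw [List.length_eq_zero_iff] at hlen
    subst hlen
    have hinj : Function.Injective (algebraMap Q R) := by
      rw [injective_iff_map_eq_zero]
      intro a ha
      have h1 := (hker a).1 ha
      rw [Ideal.ofList_nil] at h1
      exact h1
    intro _
    exact arc_of_equiv (RingEquiv.ofBijective (algebraMap Q R) ⟨hinj, hsurj⟩) h
  | succ n ih =>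
    intro Q R _ _ _ _ _ _ ys hlen hmem hreg hsurj hker h
    obtain ⟨y, zs, rfl⟩ := List.exists_cons_of_length_eq_add_one hlen
    have hym : y ∈ IsLocalRing.maximalIdeal Q := hmem y (by simp)
    rw [isWeaklyRegular_cons_iff] at hreg
    have hy : y ∈ nonZeroDivisors Q := by
      rw [mem_nonZeroDivisors_iff_right]
      intro a ha
      apply hreg.1
      change y • a = y • 0
      rw [smul_zero, smul_eq_mul, mul_comm, ha]
    have hle : Ideal.span {y} ≤ IsLocalRing.maximalIdeal Q := by
      rw [Ideal.span_singleton_le_iff_mem]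
      exact hym
    have hne : Ideal.span {y} ≠ ⊤ := fun ht =>
      (IsLocalRing.maximalIdeal.isMaximal Q).ne_top (top_le_iff.1 (ht ▸ hle))
    have hNT : Nontrivial (Q ⧸ Ideal.span {y}) := Ideal.Quotient.nontrivial_iff.2 hne
    have hs' : Function.Surjective (algebraMap Q (Q ⧸ Ideal.span {y})) :=
      Ideal.Quotient.mk_surjective
    have hLR : IsLocalRing (Q ⧸ Ideal.span {y}) :=
      IsLocalRing.of_surjective' (algebraMap Q (Q ⧸ Ideal.span {y})) hs'
    have hQ : IsQ Q (Q ⧸ Ideal.span {y}) y := by
      refine ⟨hs', fun a => ?_⟩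
      change Ideal.Quotient.mk _ a = 0 ↔ _
      rw [Ideal.Quotient.eq_zero_iff_mem, Ideal.mem_span_singleton]
      exact Iff.rfl
    have hC : IsAdicComplete (IsLocalRing.maximalIdeal (Q ⧸ Ideal.span {y}))
        (Q ⧸ Ideal.span {y}) := isAdicComplete_of_surjective (Q := Q) hs'
    have hARC : ARC (Q ⧸ Ideal.span {y}) := arc_quot hQ hy hym h
    have hyR : algebraMap Q R y = 0 := (hker y).2 (Ideal.subset_span (by simp))
    let φ : (Q ⧸ Ideal.span {y}) →+* R := Ideal.Quotient.lift (Ideal.span {y}) (algebraMap Q R)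
      (fun a ha => by
        obtain ⟨b, rfl⟩ := Ideal.mem_span_singleton.1 ha
        rw [map_mul, hyR, zero_mul])
    let _ : Algebra (Q ⧸ Ideal.span {y}) R := φ.toAlgebra
    have hφ : ∀ a, algebraMap (Q ⧸ Ideal.span {y}) R (Ideal.Quotient.mk _ a) = algebraMap Q R a :=
      fun a => rfl
    intro _
    refine ih (Q ⧸ Ideal.span {y}) R (zs.map (algebraMap Q (Q ⧸ Ideal.span {y}))) ?_ ?_ ?_ ?_ ?_
      hARC
    · rw [List.length_map]
      simpa using hlen
    · intro z hz
      obtain ⟨r, hr, rfl⟩ := List.mem_map.1 hz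
      have hr' := hmem r (by simp [hr])
      have := IsLocalHom.of_surjective (algebraMap Q (Q ⧸ Ideal.span {y})) hs'
      rw [IsLocalRing.mem_maximalIdeal, mem_nonunits_iff] at hr' ⊢
      exact fun hu => hr' (isUnit_of_map_unit (algebraMap Q (Q ⧸ Ideal.span {y})) r hu)
    · rw [isWeaklyRegular_map_algebraMap_iff]
      have heq : (Submodule.span Q {y} : Submodule Q Q) = Ideal.span {y} := rfl
      let e : QuotSMulTop y Q ≃ₗ[Q] (Q ⧸ Ideal.span {y}) :=
        Submodule.quotEquivOfEq _ _ (by
          rw [← Submodule.ideal_span_singleton_smul, smul_eq_mul, Ideal.mul_top])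
      exact (e.isWeaklyRegular_congr zs).1 hreg.2
    · intro r
      obtain ⟨a, rfl⟩ := hsurj r
      exact ⟨Ideal.Quotient.mk _ a, rfl⟩
    · intro a
      obtain ⟨a, rfl⟩ := Ideal.Quotient.mk_surjective a
      rw [hφ, hker, ← Ideal.map_ofList, Ideal.Quotient.algebraMap_eq,
        Ideal.mem_quotient_iff_mem_sup, Ideal.ofList_cons, sup_comm]

end Pool.Agent.Helper43.QH
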