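import Pool.Agent.Helper43.QH.Main
import Pool.Agent.Helper43.QL.Induct

set_option autoImplicit false
set_option linter.unusedSectionVars false

/-!
# QL-F: assembly
-/

open Pool.Agent.Helper35.ARC2 CategoryTheory Abelian RingTheory.Sequence

namespace Pool.Agent.Helper43.QH

/-- The retraction onto the coefficient field. -/
theorem exists_retraction {k R : Type} [Field k] [CommRing R] [IsLocalRing R] [Algebra k R]
    (h : Function.Surjective (algebraMap k (IsLocalRing.ResidueField R))) :
    Nonempty (R →ₐ[k] k) := by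
  let e : k ≃ₐ[k] IsLocalRing.ResidueField R :=
    AlgEquiv.ofBijective (Algebra.ofId k _) ⟨(algebraMap k (IsLocalRing.ResidueField R)).injective, h⟩
  exact ⟨e.symm.toAlgHom.comp (IsScalarTower.toAlgHom k R (IsLocalRing.ResidueField R))⟩

theorem arc_of_genFree {Q : Type} [CommRing Q] [IsNoetherianRing Q] [IsLocalRing Q]
    (hmain : ∀ [HasExt.{0} (ModuleCat.{0} Q)] (M : Type) [AddCommGroup M] [Module Q M]
      [Module.Finite Q M], GenFree Q M →
      (∀ i : ℕ, 0 < i → Subsingleton (Ext (ModuleCat.of Q M) (ModuleCat.of Q Q) i)) →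
      (∀ i : ℕ, 0 < i → Subsingleton (Ext (ModuleCat.of Q M) (ModuleCat.of Q M) i)) →
      Module.Free Q M)
    (h : IsReduced Q ∨ ∀ (p : Ideal Q) [p.IsPrime], p ∈ associatedPrimes Q Q →
      ARC (Localization p.primeCompl)) : ARC Q := by
  intro _ M _ _ _ hMR hMM
  rcases h with h | h
  · exact hmain M genFree_of_isReduced hMR hMM
  · refine hmain M (fun p hp => ?_) hMR hMM
    have hpp : p.IsPrime := hp.isPrime
    exact exists_of_free_localized p (localized_free_of_arc M p (h p hp) hMR hMM)

/-- From the ring `Q` to the rings `R` with a flat local homomorphism to `Q / (ys)`. -/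
theorem arc_of_flat_quotient {Q : Type} [CommRing Q] [IsNoetherianRing Q] [IsLocalRing Q]
    (hQ : ARC Q) (ys : List Q) (hys : IsRegular Q ys)
    (hc : ys = [] ∨ IsAdicComplete (IsLocalRing.maximalIdeal Q) Q)
    (R : Type) [CommRing R] [IsNoetherianRing R] [IsLocalRing R]
    [Algebra R (Q ⧸ Ideal.ofList ys)] [Module.Flat R (Q ⧸ Ideal.ofList ys)]
    [IsLocalHom (algebraMap R (Q ⧸ Ideal.ofList ys))] : ARC R := by
  have hne : Ideal.ofList ys ≠ ⊤ := by
    intro h
    apply hys.top_ne_smul
    rw [h, smul_eq_mul, Ideal.top_mul]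
  have hnt : Nontrivial (Q ⧸ Ideal.ofList ys) := Ideal.Quotient.nontrivial_iff.2 hne
  have hloc : IsLocalRing (Q ⧸ Ideal.ofList ys) :=
    IsLocalRing.of_surjective' (Ideal.Quotient.mk (Ideal.ofList ys)) Ideal.Quotient.mk_surjective
  have hA : ARC (Q ⧸ Ideal.ofList ys) := by
    rcases hc with rfl | hc
    · have e : Q ≃+* (Q ⧸ Ideal.ofList ([] : List Q)) := by
        refine RingEquiv.ofBijective (Ideal.Quotient.mk _) ⟨?_, Ideal.Quotient.mk_surjective⟩
        rw [injective_iff_map_eq_zero]
        intro a ha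
        rw [Ideal.Quotient.eq_zero_iff_mem, Ideal.ofList_nil] at ha
        exact ha
      intro _
      exact arc_of_equiv e hQ
    · intro _
      refine arc_quot_ofList ys.length Q (Q ⧸ Ideal.ofList ys) ys rfl ?_ hys.toIsWeaklyRegular
        Ideal.Quotient.mk_surjective (fun a => Ideal.Quotient.eq_zero_iff_mem) hQ
      intro y hy
      exact IsLocalRing.le_maximalIdeal hne (Ideal.subset_span hy)
  intro _
  exact arc_of_flat (S := Q ⧸ Ideal.ofList ys) hA

end Pool.Agent.Helper43.QH
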