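import Pool.Agent.Helper43.QL.Step

set_option autoImplicit false
set_option linter.unusedSectionVars false

/-!
# QL-B2: lifting two matrices over a complete ring
-/

open Pool.Agent.Helper35.ARC2

namespace Pool.Agent.Helper43.QH

section

variable {Q R : Type} [CommRing Q] [CommRing R] [Algebra Q R] {y : Q} {p q r s : ℕ}
  {d0 : Matrix (Fin p) (Fin q) R} {d1 : Matrix (Fin q) (Fin r) R} {d2 : Matrix (Fin r) (Fin s) R}

/-- A Cauchy sequence of the local ring has a limit. -/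
theorem exists_limit [IsLocalRing Q] [IsAdicComplete (IsLocalRing.maximalIdeal Q) Q]
    (f : ℕ → Q) (hf : ∀ n, f (n + 1) - f n ∈ IsLocalRing.maximalIdeal Q ^ n) :
    ∃ L : Q, ∀ n, f n - L ∈ IsLocalRing.maximalIdeal Q ^ n := by
  set m := IsLocalRing.maximalIdeal Q with hm
  have hle : ∀ a b : ℕ, a ≤ b → f b - f a ∈ m ^ a := by
    intro a b hab
    induction b, hab using Nat.le_induction with
    | base => simp
    | succ b hab ih =>
      have h1 : f (b + 1) - f b ∈ m ^ a := Ideal.pow_le_pow_right hab (hf b)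
      have h2 := Ideal.add_mem _ h1 ih
      have h3 : f (b + 1) - f b + (f b - f a) = f (b + 1) - f a := by ring
      rwa [h3] at h2
  obtain ⟨L, hL⟩ := IsPrecomplete.prec' (I := m) f (fun {a b} hab => by
    rw [SModEq.sub_mem, smul_eq_mul, Ideal.mul_top]
    have := hle a b hab
    rw [← neg_sub] at this
    exact (neg_mem_iff).1 this)
  refine ⟨L, fun n => ?_⟩
  have := hL n
  rwa [SModEq.sub_mem, smul_eq_mul, Ideal.mul_top] at this

/-- Krull: an element of `R` which lies in the images of all powers of the maximal ideal of `Q`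
is zero. -/
theorem eq_zero_of_forall_mem [IsNoetherianRing Q] [IsLocalRing Q] (hQ : IsQ Q R y)
    (hym : y ∈ IsLocalRing.maximalIdeal Q) (z : R)
    (hz : ∀ n : ℕ, ∃ a ∈ IsLocalRing.maximalIdeal Q ^ n, algebraMap Q R a = z) : z = 0 := by
  have key : ∀ a : Q, a ∈ IsLocalRing.maximalIdeal Q → algebraMap Q R a ≠ 1 := by
    intro a ha h1
    have h2 : algebraMap Q R (1 - a) = 0 := by rw [map_sub, map_one, h1, sub_self]
    obtain ⟨b, hb⟩ := (hQ.ker _).1 h2
    have h3 : (1 : Q) ∈ IsLocalRing.maximalIdeal Q := by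
      have h4 : (1 : Q) = a + y * b := by rw [← hb]; ring
      rw [h4]
      exact Ideal.add_mem _ ha (Ideal.mul_mem_right _ _ hym)
    exact (Ideal.ne_top_iff_one _).1 (IsLocalRing.maximalIdeal.isMaximal Q).ne_top h3
  have : Nontrivial R := by
    refine ⟨⟨0, 1, fun h => key 0 (Ideal.zero_mem _) ?_⟩⟩
    rw [map_zero]; exact h
  have : IsLocalRing R := IsLocalRing.of_surjective' (algebraMap Q R) hQ.surj
  have : IsNoetherianRing R := isNoetherianRing_of_surjective Q R (algebraMap Q R) hQ.surj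
  have hJ : Ideal.map (algebraMap Q R) (IsLocalRing.maximalIdeal Q) ≠ ⊤ := by
    intro htop
    have h1 : (1 : R) ∈ Ideal.map (algebraMap Q R) (IsLocalRing.maximalIdeal Q) := by
      rw [htop]; trivial
    obtain ⟨a, ha, ha1⟩ := (Ideal.mem_map_iff_of_surjective _ hQ.surj).1 h1
    exact key a ha ha1
  have hbot := Ideal.iInf_pow_eq_bot_of_isLocalRing _ hJ
  have hmem : z ∈ ⨅ i : ℕ, (Ideal.map (algebraMap Q R) (IsLocalRing.maximalIdeal Q)) ^ i := by
    rw [Submodule.mem_iInf]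
    intro i
    obtain ⟨a, ha, rfl⟩ := hz i
    rw [← Ideal.map_pow]
    exact Ideal.mem_map_of_mem _ ha
  rw [hbot] at hmem
  simpa using hmem

/-- Proof. By recursion there are lifts `D1 n`, `D2 n` (`n ≥ 1`) of `d0`, `d1` with
`D1 n * D2 n = y ^ n E n` and `D1 (n + 1) - D1 n`, `D2 (n + 1) - D2 n` divisible by `y ^ n`:
with `A`, `B` from `exists_correction` put `D1 (n + 1) = D1 n - y ^ n A`,
`D2 (n + 1) = D2 n - y ^ n B`. The limits `D1`, `D2` exist by completeness (entry by entry), and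
`D1 * D2 = 0` because `Q` is Hausdorff. They are lifts of `d0`, `d1`: the entries of `D1 - D1 1` lie
in `y Q + m ^ n` for all `n`, hence in `y Q` (Krull: `y Q` is closed, `Q` Noetherian local). -/
theorem exists_lift_pair [IsNoetherianRing Q] [IsLocalRing Q]
    [IsAdicComplete (IsLocalRing.maximalIdeal Q) Q] (hQ : IsQ Q R y) (hy : y ∈ nonZeroDivisors Q)
    (hym : y ∈ IsLocalRing.maximalIdeal Q)
    {M : Type} [AddCommGroup M] [Module R M]
    {π : (Fin p → R) →ₗ[R] M} (hπ : Function.Surjective π)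
    (e0 : LinearMap.range (act R d0) = LinearMap.ker π)
    (e1 : LinearMap.range (act R d1) = LinearMap.ker (act R d0))
    (e2 : LinearMap.range (act R d2) = LinearMap.ker (act R d1))
    (hM : Ex M d2.transpose d1.transpose) :
    ∃ (D1 : Matrix (Fin p) (Fin q) Q) (D2 : Matrix (Fin q) (Fin r) Q),
      D1.map (algebraMap Q R) = d0 ∧ D2.map (algebraMap Q R) = d1 ∧ D1 * D2 = 0 := by
  classical
  set m := IsLocalRing.maximalIdeal Q with hm
  have hd01 : d0 * d1 = 0 := by
    ext i j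
    have h1 : act R d0 (act R d1 (Pi.single j 1)) = 0 := by
      have h2 : act R d1 (Pi.single j 1) ∈ LinearMap.ker (act R d0) := by
        rw [← e1]; exact ⟨_, rfl⟩
      exact h2
    rw [act_act, act_mulVec] at h1
    have h3 := congrFun h1 i
    simpa using h3
  let P : ℕ → Matrix (Fin p) (Fin q) Q × Matrix (Fin q) (Fin r) Q → Prop := fun n D =>
    D.1.map (algebraMap Q R) = d0 ∧ D.2.map (algebraMap Q R) = d1 ∧
      ∃ E : Matrix (Fin p) (Fin r) Q, D.1 * D.2 = y ^ (n + 1) • E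
  have hbase : ∃ D, P 0 D := by
    obtain ⟨D1, h1⟩ := hQ.exists_lift d0
    obtain ⟨D2, h2⟩ := hQ.exists_lift d1
    obtain ⟨E, hE⟩ := hQ.exists_smul (D1 * D2) (by
      rw [Matrix.map_mul, h1, h2, hd01])
    exact ⟨(D1, D2), h1, h2, E, by simpa using hE⟩
  have hstep : ∀ n D, P n D → ∃ D', P (n + 1) D' ∧
      (∃ A : Matrix (Fin p) (Fin q) Q, D'.1 - D.1 = y ^ (n + 1) • A) ∧
      (∃ B : Matrix (Fin q) (Fin r) Q, D'.2 - D.2 = y ^ (n + 1) • B) := by
    rintro n ⟨D1, D2⟩ ⟨h1, h2, E, hE⟩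
    simp only at h1 h2 hE
    obtain ⟨A, B, E', hE'⟩ := exists_correction hQ hy hπ e0 e1 e2 hM h1 h2 (n + 1) E hE
    refine ⟨(D1 - y ^ (n + 1) • A, D2 - y ^ (n + 1) • B), ⟨?_, ?_, ?_⟩, ⟨-A, ?_⟩, ⟨-B, ?_⟩⟩
    · have h3 : (y ^ (n + 1) • A) = y • (y ^ n • A) := by rw [smul_smul, pow_succ']
      change (D1 - y ^ (n + 1) • A).map (algebraMap Q R) = d0
      rw [Matrix.map_sub _ (by intro a b; exact map_sub _ a b), h1, h3, hQ.map_smul_eq_zero,
        sub_zero]
    · have h3 : (y ^ (n + 1) • B) = y • (y ^ n • B) := by rw [smul_smul, pow_succ']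
      change (D2 - y ^ (n + 1) • B).map (algebraMap Q R) = d1
      rw [Matrix.map_sub _ (by intro a b; exact map_sub _ a b), h2, h3, hQ.map_smul_eq_zero,
        sub_zero]
    · refine ⟨E' + y ^ n • (A * B), ?_⟩
      change (D1 - y ^ (n + 1) • A) * (D2 - y ^ (n + 1) • B) = _
      rw [Matrix.sub_mul, Matrix.mul_sub, Matrix.mul_sub, hE, hE']
      simp only [Matrix.smul_mul, Matrix.mul_smul, smul_add, smul_smul]
      have e1 : y ^ (n + 1) * y = y ^ (n + 1 + 1) := (pow_succ _ _).symm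
      have e2 : y ^ (n + 1 + 1) * y ^ n = y ^ (n + 1) * y ^ (n + 1) := by ring
      rw [e1, e2]
      abel
    · simp
    · simp
  choose g hg1 hg2 hg3 using hstep
  obtain ⟨D0, hD0⟩ := hbase
  let F : ∀ n : ℕ, {D // P n D} := fun n => Nat.rec (⟨D0, hD0⟩ : {D // P 0 D})
    (fun n D => ⟨g n D.1 D.2, hg1 n D.1 D.2⟩) n
  have hF : ∀ n, (F (n + 1)).1 = g n (F n).1 (F n).2 := fun n => rfl
  have hc1 : ∀ n, ∃ A : Matrix (Fin p) (Fin q) Q,
      (F (n + 1)).1.1 - (F n).1.1 = y ^ (n + 1) • A := fun n => by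
    rw [hF]; exact hg2 n (F n).1 (F n).2
  have hc2 : ∀ n, ∃ B : Matrix (Fin q) (Fin r) Q,
      (F (n + 1)).1.2 - (F n).1.2 = y ^ (n + 1) • B := fun n => by
    rw [hF]; exact hg3 n (F n).1 (F n).2
  have hyn : ∀ (n : ℕ) (c : Q), y ^ (n + 1) * c ∈ m ^ n := fun n c =>
    Ideal.mul_mem_right _ _ (Ideal.pow_le_pow_right (Nat.le_succ n) (Ideal.pow_mem_pow hym _))
  have hl1 : ∀ i j, ∃ L : Q, ∀ n, (F n).1.1 i j - L ∈ m ^ n := by
    intro i j
    refine exists_limit _ fun n => ?_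
    obtain ⟨A, hA⟩ := hc1 n
    have := congrFun (congrFun hA i) j
    rw [Matrix.sub_apply, Matrix.smul_apply, smul_eq_mul] at this
    rw [this]
    exact hyn n _
  have hl2 : ∀ i j, ∃ L : Q, ∀ n, (F n).1.2 i j - L ∈ m ^ n := by
    intro i j
    refine exists_limit _ fun n => ?_
    obtain ⟨A, hA⟩ := hc2 n
    have := congrFun (congrFun hA i) j
    rw [Matrix.sub_apply, Matrix.smul_apply, smul_eq_mul] at this
    rw [this]
    exact hyn n _
  choose L1 hL1 using hl1
  choose L2 hL2 using hl2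
  refine ⟨Matrix.of L1, Matrix.of L2, ?_, ?_, ?_⟩
  · ext i j
    rw [Matrix.map_apply, Matrix.of_apply, ← sub_eq_zero, ← neg_eq_zero, neg_sub]
    refine eq_zero_of_forall_mem hQ hym _ fun n => ⟨(F n).1.1 i j - L1 i j, hL1 i j n, ?_⟩
    rw [map_sub]
    congr 1
    exact congrFun (congrFun (F n).2.1 i) j
  · ext i j
    rw [Matrix.map_apply, Matrix.of_apply, ← sub_eq_zero, ← neg_eq_zero, neg_sub]
    refine eq_zero_of_forall_mem hQ hym _ fun n => ⟨(F n).1.2 i j - L2 i j, hL2 i j n, ?_⟩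
    rw [map_sub]
    congr 1
    exact congrFun (congrFun (F n).2.2.1 i) j
  · ext i k
    rw [Matrix.zero_apply]
    refine IsHausdorff.haus' (I := m) _ fun n => ?_
    rw [SModEq.sub_mem, smul_eq_mul, Ideal.mul_top, sub_zero]
    obtain ⟨E, hE⟩ := (F n).2.2.2
    have h1 : ((F n).1.1 * (F n).1.2) i k ∈ m ^ n := by
      rw [hE, Matrix.smul_apply, smul_eq_mul]
      exact hyn n _
    rw [Matrix.mul_apply] at h1 ⊢
    have h2 : ∑ j, Matrix.of L1 i j * Matrix.of L2 j k =
        ∑ j, (F n).1.1 i j * (F n).1.2 j k -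
        ∑ j, (((F n).1.1 i j - L1 i j) * (F n).1.2 j k + L1 i j * ((F n).1.2 j k - L2 j k)) := by
      rw [← Finset.sum_sub_distrib]
      refine Finset.sum_congr rfl fun j _ => ?_
      rw [Matrix.of_apply, Matrix.of_apply]
      ring
    rw [h2]
    refine Ideal.sub_mem _ h1 (Ideal.sum_mem _ fun j _ => Ideal.add_mem _ ?_ ?_)
    · exact Ideal.mul_mem_right _ _ (hL1 i j n)
    · exact Ideal.mul_mem_left _ _ (hL2 j k n)

end

end Pool.Agent.Helper43.QH
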