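import Pool.Agent.Helper35.ARC2.Ascent

set_option autoImplicit false
set_option linter.unusedSectionVars false

/-!
# Definition: a quotient by one element
-/

namespace Pool.Agent.Helper43.QH

/-- The `Q`-algebra `R` is the quotient of `Q` by `y`. -/
structure IsQ (Q R : Type) [CommRing Q] [CommRing R] [Algebra Q R] (y : Q) : Prop where
  surj : Function.Surjective (algebraMap Q R)
  ker : ∀ a : Q, algebraMap Q R a = 0 ↔ ∃ b, a = y * b

/-- The map `f : L → M` is surjective with kernel `y L`, and `y` is regular on `L`. -/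
structure IsM (Q : Type) [CommRing Q] (y : Q) {L M : Type} [AddCommGroup L] [Module Q L]
    [AddCommGroup M] [Module Q M] (f : L →ₗ[Q] M) : Prop where
  surj : Function.Surjective f
  ker : ∀ a : L, f a = 0 ↔ ∃ b, a = y • b
  reg : ∀ a : L, y • a = 0 → a = 0

section

variable {Q R : Type} [CommRing Q] [CommRing R] [Algebra Q R] {y : Q}

/-- Matrices lift. -/
theorem IsQ.exists_lift (h : IsQ Q R y) {p q : ℕ} (d : Matrix (Fin p) (Fin q) R) :
    ∃ D : Matrix (Fin p) (Fin q) Q, D.map (algebraMap Q R) = d := by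
  choose f hf using h.surj
  exact ⟨d.map f, by ext i j; simp [hf]⟩

theorem IsQ.exists_smul (h : IsQ Q R y) {p q : ℕ} (D : Matrix (Fin p) (Fin q) Q)
    (hD : D.map (algebraMap Q R) = 0) : ∃ E : Matrix (Fin p) (Fin q) Q, D = y • E := by
  choose f hf using fun i j => (h.ker (D i j)).1 (congrFun (congrFun hD i) j)
  exact ⟨Matrix.of f, by ext i j; simp [hf i j]⟩

theorem IsQ.map_smul_eq_zero (h : IsQ Q R y) {p q : ℕ} (E : Matrix (Fin p) (Fin q) Q) :
    (y • E).map (algebraMap Q R) = 0 := by
  ext i j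
  simpa using (h.ker (y * E i j)).2 ⟨_, rfl⟩

end

end Pool.Agent.Helper43.QH
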