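import Pool.Agent.Helper43.QL.Quot

set_option autoImplicit false
set_option linter.unusedSectionVars false

/-!
# QL-B1: one step of the lifting of a module (Auslander, Ding, Solberg), matrices
-/

open Pool.Agent.Helper35.ARC2

namespace Pool.Agent.Helper43.QH

section

variable {Q R : Type} [CommRing Q] [CommRing R] [Algebra Q R] {y : Q} {p q r s : ℕ}
  {d0 : Matrix (Fin p) (Fin q) R} {d1 : Matrix (Fin q) (Fin r) R} {d2 : Matrix (Fin r) (Fin s) R}

/-- Factorisation of matrices along an exact sequence. -/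
private theorem mat_factor {a b c t : ℕ} {A : Matrix (Fin a) (Fin b) R}
    {B : Matrix (Fin b) (Fin c) R}
    (e : LinearMap.range (act R B) = LinearMap.ker (act R A))
    (G : Matrix (Fin b) (Fin t) R) (h : A * G = 0) :
    ∃ F : Matrix (Fin c) (Fin t) R, G = B * F := by
  have h1 : ∀ j, ∃ f : Fin c → R, act R B f = fun i => G i j := by
    intro j
    have h2 : (fun i => G i j) ∈ LinearMap.ker (act R A) := by
      rw [LinearMap.mem_ker]
      funext i
      have h3 := congrFun (congrFun h i) j
      rw [Matrix.mul_apply] at h3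
      rw [act_apply]
      simpa using h3
    rw [← e] at h2
    exact LinearMap.mem_range.1 h2
  choose f hf using h1
  refine ⟨Matrix.of fun k j => f j k, ?_⟩
  ext i j
  have h4 := congrFun (hf j) i
  rw [act_apply] at h4
  rw [Matrix.mul_apply, ← h4]
  simp

private theorem mat_zero {a b c : ℕ} {A : Matrix (Fin a) (Fin b) R}
    {B : Matrix (Fin b) (Fin c) R}
    (e : LinearMap.range (act R B) = LinearMap.ker (act R A)) : A * B = 0 := by
  ext i j
  have h1 : act R B (Pi.single j 1) ∈ LinearMap.ker (act R A) := by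
    rw [← e]
    exact LinearMap.mem_range.2 ⟨_, rfl⟩
  rw [LinearMap.mem_ker, act_act, act_mulVec] at h1
  have h2 := congrFun h1 i
  simpa using h2

private theorem smul_cancel {a b : ℕ} (hy : y ∈ nonZeroDivisors Q) (k : ℕ)
    {A B : Matrix (Fin a) (Fin b) Q} (h : y ^ k • A = y ^ k • B) : A = B := by
  ext i j
  have h1 := congrFun (congrFun h i) j
  simp only [Matrix.smul_apply, smul_eq_mul] at h1
  exact (mul_cancel_left_mem_nonZeroDivisors (pow_mem hy k)).1 h1

private theorem map_smul_pow {a b : ℕ} (hQ : IsQ Q R y) (k : ℕ)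
    (A : Matrix (Fin a) (Fin b) Q) : (y ^ (k + 1) • A).map (algebraMap Q R) = 0 := by
  rw [pow_succ', mul_smul]
  exact hQ.map_smul_eq_zero _

private theorem sub_map_eq_zero {a b : ℕ} {A B : Matrix (Fin a) (Fin b) Q}
    (h : A.map (algebraMap Q R) = B.map (algebraMap Q R)) :
    (A - B).map (algebraMap Q R) = 0 := by
  ext i j
  have h1 := congrFun (congrFun h i) j
  simp only [Matrix.map_apply] at h1
  simp [h1]

/-- Let `D1`, `D2` be lifts of `d0`, `d1` with `D1 D2 = y ^ n E`. Then there is a lift `D3` of `d2`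
with `D2 D3` divisible by `y ^ n`. Proof by induction on `j ≤ n`: lifts `D3` of `d2` with
`D2 D3 = y ^ j E'`. The case `j = 0` is trivial, `j = 1` holds for every lift (`d1 d2 = 0`). Step
`1 ≤ j < n`: `y ^ j D1 E' = D1 D2 D3 = y ^ n E D3`, so `D1 E' = y ^ (n - j) E D3` is zero over `R`;
as `ker d0 = range d1` column by column `E' = D2 F + y E''`; then `D3 - y ^ j F` is a lift of `d2`
and `D2 (D3 - y ^ j F) = y ^ (j + 1) E''`. -/
theorem exists_third (hQ : IsQ Q R y) (hy : y ∈ nonZeroDivisors Q)
    {D1 : Matrix (Fin p) (Fin q) Q} {D2 : Matrix (Fin q) (Fin r) Q}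
    (h1 : D1.map (algebraMap Q R) = d0) (h2 : D2.map (algebraMap Q R) = d1)
    (e1 : LinearMap.range (act R d1) = LinearMap.ker (act R d0))
    (e2 : LinearMap.range (act R d2) = LinearMap.ker (act R d1))
    (n : ℕ) (E : Matrix (Fin p) (Fin r) Q) (hE : D1 * D2 = y ^ n • E) :
    ∃ (D3 : Matrix (Fin r) (Fin s) Q) (E' : Matrix (Fin q) (Fin s) Q),
      D3.map (algebraMap Q R) = d2 ∧ D2 * D3 = y ^ n • E' := by
  have key : ∀ j : ℕ, j ≤ n → ∃ (D3 : Matrix (Fin r) (Fin s) Q) (E' : Matrix (Fin q) (Fin s) Q),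
      D3.map (algebraMap Q R) = d2 ∧ D2 * D3 = y ^ j • E' := by
    intro j
    induction j with
    | zero =>
      intro _
      obtain ⟨D3, h3⟩ := hQ.exists_lift d2
      exact ⟨D3, D2 * D3, h3, by rw [pow_zero, one_smul]⟩
    | succ j ih =>
      intro hj
      obtain ⟨D3, E', h3, h4⟩ := ih (by omega)
      rcases Nat.eq_zero_or_pos j with rfl | hj0
      · have h5 : (D2 * D3).map (algebraMap Q R) = 0 := by
          rw [Matrix.map_mul, h2, h3]
          exact mat_zero e2
        obtain ⟨E'', h6⟩ := hQ.exists_smul _ h5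
        exact ⟨D3, E'', h3, by rw [h6, zero_add, pow_one]⟩
      · obtain ⟨i, rfl⟩ : ∃ i, j = i + 1 := ⟨j - 1, by omega⟩
        obtain ⟨k, rfl⟩ : ∃ k, n = (i + 1) + (k + 1) := ⟨n - (i + 1) - 1, by omega⟩
        have h5 : D1 * E' = y ^ (k + 1) • (E * D3) := by
          apply smul_cancel hy (i + 1)
          calc y ^ (i + 1) • (D1 * E') = D1 * (y ^ (i + 1) • E') := by rw [Matrix.mul_smul]
            _ = D1 * (D2 * D3) := by rw [h4]
            _ = (D1 * D2) * D3 := by rw [Matrix.mul_assoc]
            _ = y ^ (i + 1 + (k + 1)) • (E * D3) := by rw [hE, Matrix.smul_mul]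
            _ = y ^ (i + 1) • y ^ (k + 1) • (E * D3) := by rw [pow_add, mul_smul]
        have h6 : d0 * E'.map (algebraMap Q R) = 0 := by
          rw [← h1, ← Matrix.map_mul, h5]
          exact map_smul_pow hQ k _
        obtain ⟨F0, hF0⟩ := mat_factor e1 _ h6
        obtain ⟨F, hF⟩ := hQ.exists_lift F0
        have h7 : (E' - D2 * F).map (algebraMap Q R) = 0 := by
          apply sub_map_eq_zero
          rw [Matrix.map_mul, h2, hF, hF0]
        obtain ⟨E'', h8⟩ := hQ.exists_smul _ h7
        refine ⟨D3 - y ^ (i + 1) • F, E'', ?_, ?_⟩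
        · have h9 : (D3 - y ^ (i + 1) • F).map (algebraMap Q R)
              = D3.map (algebraMap Q R) - (y ^ (i + 1) • F).map (algebraMap Q R) := by
            ext a b
            simp
          rw [h9, map_smul_pow hQ, sub_zero, h3]
        · rw [Matrix.mul_sub, h4, Matrix.mul_smul, ← smul_sub, h8, smul_smul, ← pow_succ]
  exact key n le_rfl

/-- Correction. `Ex M d2.transpose d1.transpose` is the vanishing of `Ext ^ 2 (M, M)`. Proof. Take
`D3`, `E'` from `exists_third`. Then `y ^ n E D3 = D1 D2 D3 = y ^ n D1 E'`, so `E D3 = D1 E'`. Over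
`R`: let `e` be the image of `E` and `v : Fin r → M`, `v b = π (column b of e)`. Then
`act M d2.transpose v = 0`, as `e d2 = d0 e'` and `π d0 = 0`. So `v = act M d1.transpose w`; choose
`a : Matrix (Fin p) (Fin q) R` with `w b = π (column b of a)`; then `π` kills the columns of
`e - a d1`, so `e - a d1 = d0 b` for a matrix `b`. Lift `a`, `b`. -/
theorem exists_correction (hQ : IsQ Q R y) (hy : y ∈ nonZeroDivisors Q)
    {M : Type} [AddCommGroup M] [Module R M]
    {π : (Fin p → R) →ₗ[R] M} (hπ : Function.Surjective π)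
    (e0 : LinearMap.range (act R d0) = LinearMap.ker π)
    (e1 : LinearMap.range (act R d1) = LinearMap.ker (act R d0))
    (e2 : LinearMap.range (act R d2) = LinearMap.ker (act R d1))
    (hM : Ex M d2.transpose d1.transpose)
    {D1 : Matrix (Fin p) (Fin q) Q} {D2 : Matrix (Fin q) (Fin r) Q}
    (h1 : D1.map (algebraMap Q R) = d0) (h2 : D2.map (algebraMap Q R) = d1)
    (n : ℕ) (E : Matrix (Fin p) (Fin r) Q) (hE : D1 * D2 = y ^ n • E) :
    ∃ (A : Matrix (Fin p) (Fin q) Q) (B : Matrix (Fin q) (Fin r) Q)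
      (E' : Matrix (Fin p) (Fin r) Q), E = A * D2 + D1 * B + y • E' := by
  obtain ⟨D3, E', h3, h4⟩ := exists_third hQ hy h1 h2 e1 e2 n E hE
  have h5 : E * D3 = D1 * E' := by
    apply smul_cancel hy n
    calc y ^ n • (E * D3) = (D1 * D2) * D3 := by rw [hE, Matrix.smul_mul]
      _ = D1 * (D2 * D3) := by rw [Matrix.mul_assoc]
      _ = y ^ n • (D1 * E') := by rw [h4, Matrix.mul_smul]
  have h6 : E.map (algebraMap Q R) * d2 = d0 * E'.map (algebraMap Q R) := by
    rw [← h3, ← h1, ← Matrix.map_mul, ← Matrix.map_mul, h5]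
  have hπ0 : ∀ u : Fin q → R, π (act R d0 u) = 0 := by
    intro u
    have : act R d0 u ∈ LinearMap.ker π := by
      rw [← e0]
      exact LinearMap.mem_range.2 ⟨_, rfl⟩
    exact LinearMap.mem_ker.1 this
  have hcomb : ∀ {a b : ℕ} (X : Matrix (Fin p) (Fin a) R) (Y : Matrix (Fin a) (Fin b) R)
      (c : Fin b), ∑ k, Y k c • π (fun i => X i k) = π (fun i => (X * Y) i c) := by
    intro a b X Y c
    rw [← Finset.sum_congr rfl (fun k _ => π.map_smul (Y k c) (fun i => X i k)), ← map_sum]
    congr 1
    funext i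
    rw [Matrix.mul_apply, Finset.sum_apply]
    refine Finset.sum_congr rfl fun k _ => ?_
    simp [mul_comm]
  have h7 : act M d2.transpose (fun b => π (fun i => E.map (algebraMap Q R) i b)) = 0 := by
    funext c
    rw [act_apply]
    simp only [Matrix.transpose_apply]
    rw [hcomb (E.map (algebraMap Q R)) d2 c, h6]
    have h8 : (fun i => (d0 * E'.map (algebraMap Q R)) i c)
        = act R d0 (fun k => E'.map (algebraMap Q R) k c) := by
      funext i
      rw [Matrix.mul_apply, act_apply]
      rfl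
    rw [h8, hπ0]
    rfl
  obtain ⟨w, hw⟩ := hM _ h7
  choose g hg using fun k => hπ (w k)
  have h9 : ∀ b, π (fun i => (E.map (algebraMap Q R)
      - (Matrix.of fun i k => g k i) * d1) i b) = 0 := by
    intro b
    have h10 := congrFun hw b
    rw [act_apply] at h10
    simp only [Matrix.transpose_apply] at h10
    have h11 : (fun i => (E.map (algebraMap Q R)
        - (Matrix.of fun i k => g k i) * d1) i b)
        = (fun i => E.map (algebraMap Q R) i b)
          - (fun i => ((Matrix.of fun i k => g k i) * d1) i b) := by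
      funext i
      rfl
    rw [h11, map_sub, ← hcomb (Matrix.of fun i k => g k i) d1 b, h10, sub_eq_zero]
    refine Finset.sum_congr rfl fun k _ => ?_
    rw [← hg k]
    rfl
  have h12 : ∀ b, ∃ u : Fin q → R, act R d0 u = fun i => (E.map (algebraMap Q R)
      - (Matrix.of fun i k => g k i) * d1) i b := by
    intro b
    have : (fun i => (E.map (algebraMap Q R)
      - (Matrix.of fun i k => g k i) * d1) i b) ∈ LinearMap.ker π := LinearMap.mem_ker.2 (h9 b)
    rw [← e0] at this
    exact LinearMap.mem_range.1 this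
  choose u hu using h12
  obtain ⟨A, hA⟩ := hQ.exists_lift (Matrix.of fun i k => g k i)
  obtain ⟨B, hB⟩ := hQ.exists_lift (Matrix.of fun k b => u b k)
  have h13 : (E - (A * D2 + D1 * B)).map (algebraMap Q R) = 0 := by
    apply sub_map_eq_zero
    have h14 : (A * D2 + D1 * B).map (algebraMap Q R)
        = A.map (algebraMap Q R) * D2.map (algebraMap Q R)
          + D1.map (algebraMap Q R) * B.map (algebraMap Q R) := by
      rw [← Matrix.map_mul, ← Matrix.map_mul]
      ext i j
      exact map_add (algebraMap Q R) _ _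
    rw [h14, hA, hB, h1, h2]
    ext i b
    have h15 := congrFun (hu b) i
    rw [act_apply] at h15
    rw [Matrix.add_apply, Matrix.mul_apply (M := d0)]
    simp only [Matrix.sub_apply, smul_eq_mul] at h15
    simp only [Matrix.of_apply]
    rw [h15]
    ring
  obtain ⟨E'', h16⟩ := hQ.exists_smul _ h13
  exact ⟨A, B, E'', by rw [← h16]; abel⟩

end

end Pool.Agent.Helper43.QH
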